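import Mathlib
import Pool.Agent.H62.Circular

/-!
# The number of slits
-/

open MeasureTheory Set Complex Metric Filter Topology
open scoped Real OnePoint

namespace Pool.Agent.H62

theorem component_eq_piece {X ι : Type*} [TopologicalSpace X] [Finite ι] {P : ι → Set X}
    (hcl : ∀ i, IsClosed (P i)) (hpre : ∀ i, IsPreconnected (P i))
    (hdisj : Pairwise (fun i j => Disjoint (P i) (P j))) {i : ι} {x : X} (hx : x ∈ P i) :
    connectedComponentIn (⋃ i, P i) x = P i := by
  apply Subset.antisymm
  · have h1 : IsClosed (⋃ j ∈ {j | j ≠ i}, P j) :=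
      (toFinite _).isClosed_biUnion (fun j _ => hcl j)
    apply preconn_subset_left_closed isPreconnected_connectedComponentIn (hcl i) h1
    · rw [Set.disjoint_left]
      intro y hy hy'
      simp only [mem_iUnion] at hy'
      obtain ⟨j, hj, hyj⟩ := hy'
      exact Set.disjoint_left.mp (hdisj (Ne.symm hj)) hy hyj
    · intro y hy
      have h2 := connectedComponentIn_subset _ _ hy
      obtain ⟨j, hj⟩ := mem_iUnion.mp h2
      by_cases hji : j = i
      · left; rw [← hji]; exact hj
      · right
        simp only [mem_iUnion]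
        exact ⟨j, hji, hj⟩
    · exact ⟨x, mem_connectedComponentIn (mem_iUnion.mpr ⟨i, hx⟩), hx⟩
  · exact (hpre i).subset_connectedComponentIn hx (subset_iUnion P i)

theorem ncard_comps_slitDisc {R : ℝ} (hR : 0 < R) {m : ℕ} {ρ α β : Fin m → ℝ}
    (h : ∀ j, 0 < ρ j ∧ ρ j < R ∧ α j ≤ β j ∧ β j < α j + 2 * π)
    (hd : Pairwise (fun i j => Disjoint (arc (ρ i) (α i) (β i)) (arc (ρ j) (α j) (β j)))) :
    (comps (ball 0 R \ ⋃ j, arc (ρ j) (α j) (β j))).ncard = m + 1 := by
  set U : Set ℂ := ball 0 R \ ⋃ j, arc (ρ j) (α j) (β j) with hU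
  set P : Option (Fin m) → Set (OnePoint ℂ) := fun i =>
    i.elim ((↑) '' {z : ℂ | R ≤ ‖z‖} ∪ {∞} : Set (OnePoint ℂ))
      (fun j => (↑) '' arc (ρ j) (α j) (β j)) with hP
  have hnorm : ∀ j, ∀ z ∈ arc (ρ j) (α j) (β j), ‖z‖ < R := fun j z hz => by
    rw [norm_of_mem_arc (h j).1.le hz]; exact (h j).2.1
  have hPcl : ∀ i, IsClosed (P i) := by
    rintro (_ | j)
    · change IsClosed ((↑) '' {z : ℂ | R ≤ ‖z‖} ∪ {∞} : Set (OnePoint ℂ))
      rw [OnePoint.isClosed_iff_of_mem (Or.inr rfl), preimage_union, OnePoint.coe_preimage_infty,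
        union_empty, preimage_image_eq _ OnePoint.coe_injective]
      exact isClosed_le continuous_const continuous_norm
    · change IsClosed ((↑) '' arc (ρ j) (α j) (β j) : Set (OnePoint ℂ))
      exact ((isCompact_arc _ _ _).image OnePoint.continuous_coe).isClosed
  have hPpre : ∀ i, IsPreconnected (P i) := by
    rintro (_ | j)
    · exact isPreconnected_outer hR
    · change IsPreconnected ((↑) '' arc (ρ j) (α j) (β j) : Set (OnePoint ℂ))
      rw [isPreconnected_coe_image]
      exact isPreconnected_Icc.image _ (by fun_prop)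
  have hPne : ∀ i, (P i).Nonempty := by
    rintro (_ | j)
    · exact ⟨∞, Or.inr rfl⟩
    · exact ⟨_, _, ⟨α j, left_mem_Icc.mpr (h j).2.2.1, rfl⟩, rfl⟩
  have hPd : Pairwise (fun i j => Disjoint (P i) (P j)) := by
    have hout : ∀ j : Fin m, Disjoint (P none) (P (some j)) := by
      intro j
      rw [Set.disjoint_left]
      rintro _ h1 ⟨z, hz, rfl⟩
      have h2 := hnorm j z hz
      rcases h1 with ⟨w, hw, hwz⟩ | h1
      · rw [OnePoint.coe_eq_coe] at hwz
        rw [hwz] at hw
        have : R ≤ ‖z‖ := hw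
        linarith
      · exact OnePoint.coe_ne_infty z h1
    rintro (_ | i) (_ | j) hij
    · exact absurd rfl hij
    · exact hout j
    · exact (hout i).symm
    · have hij' : i ≠ j := fun hh => hij (by rw [hh])
      change Disjoint ((↑) '' arc (ρ i) (α i) (β i) : Set (OnePoint ℂ)) ((↑) '' arc (ρ j) (α j) (β j))
      exact (hd hij').image OnePoint.coe_injective.injOn (subset_univ _) (subset_univ _)
  have hcpl : cpl U = ⋃ i, P i := by
    ext x
    rw [mem_iUnion]
    constructor
    · intro hx
      induction x using OnePoint.rec with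
      | infty => exact ⟨none, Or.inr rfl⟩
      | coe z =>
        have hzU := coe_mem_cpl.mp hx
        by_cases h1 : ‖z‖ < R
        · have h2 : z ∈ ⋃ j, arc (ρ j) (α j) (β j) := by
            by_contra h3
            exact hzU ⟨by rw [mem_ball, dist_zero_right]; exact h1, h3⟩
          obtain ⟨j, hj⟩ := mem_iUnion.mp h2
          exact ⟨some j, z, hj, rfl⟩
        · refine ⟨none, Or.inl ⟨z, ?_, rfl⟩⟩
          change R ≤ ‖z‖
          exact not_lt.mp h1
    · rintro ⟨(_ | j), hx⟩
      · rcases hx with ⟨z, hz, rfl⟩ | hx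
        · rw [coe_mem_cpl]
          rintro ⟨h1, -⟩
          rw [mem_ball, dist_zero_right] at h1
          have : R ≤ ‖z‖ := hz
          linarith
        · rw [mem_singleton_iff] at hx
          rw [hx]; exact infty_mem_cpl
      · obtain ⟨z, hz, rfl⟩ := hx
        rw [coe_mem_cpl]
        rintro ⟨-, h1⟩
        exact h1 (mem_iUnion.mpr ⟨j, hz⟩)
  have hrange : comps U = range P := by
    ext E
    constructor
    · rintro ⟨x, hx, rfl⟩
      rw [hcpl] at hx ⊢
      obtain ⟨i, hi⟩ := mem_iUnion.mp hx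
      exact ⟨i, (component_eq_piece hPcl hPpre hPd hi).symm⟩
    · rintro ⟨i, rfl⟩
      obtain ⟨x, hx⟩ := hPne i
      refine ⟨x, ?_, ?_⟩
      · rw [hcpl]; exact mem_iUnion.mpr ⟨i, hx⟩
      · rw [hcpl]; exact (component_eq_piece hPcl hPpre hPd hx).symm
  have hinj : Function.Injective P := by
    intro i j hij
    by_contra hne
    obtain ⟨x, hx⟩ := hPne i
    exact Set.disjoint_left.mp (hPd hne) hx (by rw [← hij]; exact hx)
  rw [hrange, ← image_univ, Set.ncard_image_of_injective _ hinj, Set.ncard_univ,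
    Nat.card_eq_fintype_card, Fintype.card_option, Fintype.card_fin]

end Pool.Agent.H62
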