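import Mathlib
import Pool.Agent.H62.Circular
import Pool.Agent.H62.Defs2

/-!
# The minimal area problem
-/

open MeasureTheory Set Complex Metric Filter Topology
open scoped Real OnePoint

namespace Pool.Agent.H62

section

variable {D : Set ℂ} {f F k η : ℂ → ℂ} {R : ℝ}

theorem notMem_image_of_boundary (hD : IsOpen D) (hf : DifferentiableOn ℂ f D)
    (hinj : InjOn f D) {L : Filter ℂ} [L.NeBot] (hL : ∀ᶠ z in L, z ∈ D)
    {e : OnePoint ℂ} (he : e ∈ cpl D) (hLe : Tendsto (fun z : ℂ => (z : OnePoint ℂ)) L (𝓝 e))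
    {w : ℂ} (hLw : Tendsto f L (𝓝 w)) : w ∉ f '' D := by
  rintro ⟨z₀, hz₀, rfl⟩
  obtain ⟨G, hGd, hGf, hGm⟩ := exists_inverse' hD hf hinj
  have ho : IsOpen (f '' D) := isOpen_image hD hf hinj hD subset_rfl
  have hGc : ContinuousAt G (f z₀) :=
    (hGd.differentiableAt (ho.mem_nhds ⟨z₀, hz₀, rfl⟩)).continuousAt
  have h1 : Tendsto (fun z => G (f z)) L (𝓝 z₀) := by
    have := hGc.tendsto.comp hLw
    rwa [hGf z₀ hz₀] at this
  have h2 : Tendsto (fun z : ℂ => z) L (𝓝 z₀) := by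
    apply h1.congr'
    filter_upwards [hL] with z hz using hGf z hz
  have h3 : Tendsto (fun z : ℂ => (z : OnePoint ℂ)) L (𝓝 (z₀ : OnePoint ℂ)) :=
    (OnePoint.continuous_coe.tendsto z₀).comp h2
  have h4 := tendsto_nhds_unique hLe h3
  rw [h4] at he
  exact coe_mem_cpl.mp he hz₀

/-- Points of the outer circle have trivial periods. -/
theorem per_outer (hD : IsOpen D) (hDc : IsPreconnected D) (hF : DifferentiableOn ℂ F D)
    (hFi : InjOn F D) (hR : IsCircularSlitDisc (F '' D) R) {w : ℂ} (hw : ‖w‖ = R)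
    (hη : TestFn D η) : per η (fun z => deriv F z / (F z - w)) = 0 := by
  have hΩo : IsOpen (F '' D) := isOpen_image hD hF hFi hD subset_rfl
  have hΩc : IsPreconnected (F '' D) := hDc.image _ hF.continuousOn
  have hsub : F '' D ⊆ ball 0 R := by
    obtain ⟨-, m, ρ, α, β, -, -, him⟩ := hR
    rw [him]; exact sdiff_subset
  have hwn : ∀ x ∈ F '' D, x - w ≠ 0 := by
    intro x hx h
    have := hsub hx
    rw [sub_eq_zero.mp h, mem_ball, dist_zero_right, hw] at this
    exact lt_irrefl _ this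
  have hdiff : DifferentiableOn ℂ (fun x => (x - w)⁻¹) (F '' D) :=
    (differentiableOn_id.sub_const w).inv hwn
  have hP : HasPrim (F '' D) (fun x => (x - w)⁻¹) := by
    rw [hasPrim_iff_per hΩo hΩc hdiff]
    intro θ hθ
    rw [hθ.per_inv_sub]
    have h1 : ext θ (w : OnePoint ℂ) = ext θ ∞ := by
      apply hθ.ext_const_on (isPreconnected_outer hR.1)
      · rintro x (⟨z, hz, rfl⟩ | hx)
        · rw [coe_mem_cpl]
          intro hzΩ
          have h2 := hsub hzΩ
          rw [mem_ball, dist_zero_right] at h2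
          have h3 : R ≤ ‖z‖ := hz
          linarith
        · rw [mem_singleton_iff] at hx
          rw [hx]; exact infty_mem_cpl
      · refine Or.inl ⟨w, ?_, rfl⟩
        change R ≤ ‖w‖
        exact hw.ge
      · exact Or.inr rfl
    rw [ext_coe, ext_infty] at h1
    rw [h1, mul_zero]
  have hP2 := hasPrim_comp hD hF hP
  have h2 := hη.per_hasPrim hD hP2
  rw [← h2]
  apply hη.per_congr
  intro z _
  simp only
  rw [div_eq_mul_inv, mul_comm]

/-- Points of the slits have nontrivial periods. -/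
theorem exists_per_ne (hD : IsOpen D) (hF : DifferentiableOn ℂ F D)
    (hFi : InjOn F D) (hDc : IsPreconnected D)
    (hR : IsCircularSlitDisc (F '' D) R) {w : ℂ} (hw : ‖w‖ < R) (hwD : w ∉ F '' D) :
    ∃ η, TestFn D η ∧ per η (fun z => deriv F z / (F z - w)) ≠ 0 := by
  have hΩo : IsOpen (F '' D) := isOpen_image hD hF hFi hD subset_rfl
  obtain ⟨hR0, m, ρ, α, β, h, -, him⟩ := hR
  have hPc : IsCompact (⋃ j, arc (ρ j) (α j) (β j)) := isCompact_iUnion (fun j => isCompact_arc _ _ _)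
  obtain ⟨θ, hθ, hθ1, -⟩ := exists_test_of_partition (D := F '' D)
    (P := ⋃ j, arc (ρ j) (α j) (β j)) (Q := (ball (0 : ℂ) R)ᶜ) hPc isOpen_ball.isClosed_compl
    (by
      rw [Set.disjoint_left]
      intro z hz hzb
      apply hzb
      obtain ⟨j, hj⟩ := mem_iUnion.mp hz
      rw [mem_ball, dist_zero_right, norm_of_mem_arc (h j).1.le hj]
      exact (h j).2.1)
    (by
      intro z hz
      rw [him] at hz
      by_cases h1 : z ∈ ball (0 : ℂ) R
      · left
        by_contra h2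
        exact hz ⟨h1, h2⟩
      · right; exact h1)
  have hwP : w ∈ ⋃ j, arc (ρ j) (α j) (β j) := by
    by_contra h1
    apply hwD
    rw [him]
    exact ⟨by rw [mem_ball, dist_zero_right]; exact hw, h1⟩
  by_contra hcon
  push Not at hcon
  have hfw : ∀ z ∈ D, F z - w ≠ 0 := fun z hz h => hwD ⟨z, hz, sub_eq_zero.mp h⟩
  have hdiff : DifferentiableOn ℂ (fun z => deriv F z / (F z - w)) D :=
    (hF.deriv hD).div (hF.sub_const w) hfw
  have hP : HasPrim D (fun z => deriv F z / (F z - w)) :=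
    (hasPrim_iff_per hD hDc hdiff).mpr hcon
  have hP2 : HasPrim (F '' D) (fun x => (x - w)⁻¹) := by
    apply hasPrim_image hD hF hFi
    have h2 : (fun z => (F z - w)⁻¹ * deriv F z) = fun z => deriv F z / (F z - w) := by
      ext z; rw [div_eq_mul_inv, mul_comm]
    rw [h2]; exact hP
  have h3 := hθ.per_hasPrim hΩo hP2
  rw [hθ.per_inv_sub, hθ1 w hwP, mul_one, neg_eq_zero] at h3
  exact Real.pi_ne_zero (by exact_mod_cast h3)

/-- A circular slit map whose type lies in `E` carries `E` to the outer circle. -/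
theorem tendsto_of_type (hD : IsOpen D) (hDc : IsPreconnected D) (h0 : (0 : ℂ) ∈ D)
    (hF : InS D F) (hR : IsCircularSlitDisc (F '' D) R) {E : Set (OnePoint ℂ)}
    (hE : E ∈ comps D) {e₀ e : OnePoint ℂ} (he₀ : e₀ ∈ E) (he : e ∈ E)
    (htype : ∀ η, TestFn D η → per η (ldq F 0) = π * ext η e₀) :
    Tendsto (fun z : ℂ => ‖F z‖) (comap (fun z : ℂ => (z : OnePoint ℂ)) (𝓝 e) ⊓ 𝓟 D) (𝓝 R) := by
  rw [tendsto_iff_ultrafilter]
  intro U hU
  have hUD : ∀ᶠ z in (U : Filter ℂ), z ∈ D := hU (mem_inf_of_right (mem_principal_self D))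
  have hUe : Tendsto (fun z : ℂ => (z : OnePoint ℂ)) U (𝓝 e) :=
    tendsto_iff_comap.mpr (hU.trans inf_le_left)
  have hsub : F '' D ⊆ ball 0 R := by
    obtain ⟨-, m, ρ, α, β, -, -, him⟩ := hR
    rw [him]; exact sdiff_subset
  have h1 : ((U.map F : Ultrafilter ℂ) : Filter ℂ) ≤ 𝓟 (closedBall (0 : ℂ) R) := by
    rw [le_principal_iff]
    change F ⁻¹' closedBall (0 : ℂ) R ∈ U
    filter_upwards [hUD] with z hz using ball_subset_closedBall (hsub ⟨z, hz, rfl⟩)
  obtain ⟨w, hw, hle⟩ := (isCompact_closedBall (0 : ℂ) R).ultrafilter_le_nhds _ h1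
  have hUw : Tendsto F U (𝓝 w) := hle
  rw [mem_closedBall, dist_zero_right] at hw
  rcases hw.lt_or_eq with hlt | heq
  · exfalso
    have hecpl : e ∈ cpl D := comps_subset hE he
    have hwD : w ∉ F '' D := notMem_image_of_boundary hD hF.holo hF.inj hUD hecpl hUe hUw
    obtain ⟨η, hη, hne⟩ := exists_per_ne hD hF.holo hF.inj hDc hR hlt hwD
    have h2 := correspondence hD hDc hF.holo hF.inj h0 hUD hecpl hUe hwD hUw hη
    rw [htype η hη, hη.ext_const_on (comps_preconn hE) (comps_subset hE) he₀ he] at h2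
    apply hne
    linear_combination -h2
  · rw [← heq]
    exact hUw.norm

/-- If `|F| → R` at a boundary point `e` then `F` has type `e`. -/
theorem type_of_tendsto (hD : IsOpen D) (hDc : IsPreconnected D) (h0 : (0 : ℂ) ∈ D)
    (hF : InS D F) (hR : IsCircularSlitDisc (F '' D) R) {e : OnePoint ℂ} (he : e ∈ cpl D)
    {L : Filter ℂ} [L.NeBot] (hL : ∀ᶠ z in L, z ∈ D)
    (hLe : Tendsto (fun z : ℂ => (z : OnePoint ℂ)) L (𝓝 e))
    (ht : Tendsto (fun z : ℂ => ‖F z‖) L (𝓝 R)) (hη : TestFn D η) :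
    per η (ldq F 0) = π * ext η e := by
  set U : Ultrafilter ℂ := Ultrafilter.of L with hUdef
  have hUL : (U : Filter ℂ) ≤ L := Ultrafilter.of_le L
  have hsub : F '' D ⊆ ball 0 R := by
    obtain ⟨-, m, ρ, α, β, -, -, him⟩ := hR
    rw [him]; exact sdiff_subset
  have hUD : ∀ᶠ z in (U : Filter ℂ), z ∈ D := hUL hL
  have h1 : ((U.map F : Ultrafilter ℂ) : Filter ℂ) ≤ 𝓟 (closedBall (0 : ℂ) R) := by
    rw [le_principal_iff]
    change F ⁻¹' closedBall (0 : ℂ) R ∈ U
    filter_upwards [hUD] with z hz using ball_subset_closedBall (hsub ⟨z, hz, rfl⟩)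
  obtain ⟨w, -, hle⟩ := (isCompact_closedBall (0 : ℂ) R).ultrafilter_le_nhds _ h1
  have hUw : Tendsto F U (𝓝 w) := hle
  have hwR : ‖w‖ = R := tendsto_nhds_unique hUw.norm (ht.mono_left hUL)
  have hwD : w ∉ F '' D := by
    intro h
    have := hsub h
    rw [mem_ball, dist_zero_right, hwR] at this
    exact lt_irrefl _ this
  rw [correspondence hD hDc hF.holo hF.inj h0 hUD he (hLe.mono_left hUL) hwD hUw hη,
    per_outer hD hDc hF.holo hF.inj hR hwR hη, zero_add]

/-- The type of a circular slit map attached to a component. -/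
theorem IsCircularSlitMap.type (hD : IsOpen D) (hDc : IsPreconnected D) (h0 : (0 : ℂ) ∈ D)
    (hfin : (comps D).Finite) {E : Set (OnePoint ℂ)} (hE : E ∈ comps D)
    (h : IsCircularSlitMap D E R F) {e : OnePoint ℂ} (he : e ∈ E) (hη : TestFn D η) :
    per η (ldq F 0) = π * ext η e := by
  obtain ⟨x, hx1, hx2⟩ := comps_touch hD ⟨0, h0⟩ hfin hE
  rw [mem_closure_iff_comap_neBot] at hx1
  have hNe : (comap (fun z : ℂ => (z : OnePoint ℂ)) (𝓝 x) ⊓ 𝓟 D).NeBot := by
    rw [inf_principal_neBot_iff]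
    intro s hs
    obtain ⟨t, ht, hts⟩ := hs
    have h3 : x ∈ closure ((↑) '' D : Set (OnePoint ℂ)) := mem_closure_iff_comap_neBot.mpr hx1
    obtain ⟨y, hyt, z, hz, rfl⟩ := mem_closure_iff_nhds.mp h3 t ht
    exact ⟨z, hts hyt, hz⟩
  rw [type_of_tendsto hD hDc h0 h.inS h.image (comps_subset hE hx2)
    (L := comap (fun z : ℂ => (z : OnePoint ℂ)) (𝓝 x) ⊓ 𝓟 D)
    (mem_inf_of_right (mem_principal_self D)) (tendsto_comap.mono_left inf_le_left)
    (h.outer x hx2) hη, hη.ext_const_on (comps_preconn hE) (comps_subset hE) hx2 he]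

/-- Every map in `S(D)` onto a circular slit disc is attached to a component. -/
theorem exists_comp_of_circular (hD : IsOpen D) (hDc : IsPreconnected D) (h0 : (0 : ℂ) ∈ D)
    (hF : InS D F) (hR : IsCircularSlitDisc (F '' D) R) :
    ∃ E ∈ comps D, IsCircularSlitMap D E R F := by
  obtain ⟨S, hS⟩ := hR.slitLike
  have hR0 : 0 < R := hR.1
  set w : ℂ := (R : ℂ) with hw
  have hwn : ‖w‖ = R := by
    rw [hw, Complex.norm_real, Real.norm_eq_abs, abs_of_pos hR0]
  have hsub : F '' D ⊆ ball 0 R := hS.subset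
  have hNe : (comap F (𝓝 w) ⊓ 𝓟 D).NeBot := by
    rw [inf_principal_neBot_iff]
    intro s hs
    obtain ⟨t, ht, hts⟩ := hs
    obtain ⟨ε, hε, hεt⟩ := Metric.mem_nhds_iff.mp ht
    obtain ⟨r, hr, hrS⟩ := hS.exists_notMem (show max 0 (R - ε) < R from max_lt hR0 (by linarith))
    have hr0 : 0 < r := lt_of_le_of_lt (le_max_left _ _) hr.1
    have hrε : R - ε < r := lt_of_le_of_lt (le_max_right _ _) hr.1
    have h1 : (r : ℂ) ∈ F '' D := by
      apply hS.circ r ⟨hr0, hr.2⟩ hrS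
      rw [mem_sphere, dist_zero_right, Complex.norm_real, Real.norm_eq_abs, abs_of_pos hr0]
    obtain ⟨z, hz, hzr⟩ := h1
    refine ⟨z, hts ?_, hz⟩
    rw [mem_preimage]
    apply hεt
    rw [hzr, mem_ball, hw, dist_eq_norm, ← ofReal_sub, Complex.norm_real, Real.norm_eq_abs, abs_lt]
    constructor <;> linarith [hr.2]
  set U : Ultrafilter ℂ := Ultrafilter.of (comap F (𝓝 w) ⊓ 𝓟 D) with hUdef
  have hUL : (U : Filter ℂ) ≤ comap F (𝓝 w) ⊓ 𝓟 D := Ultrafilter.of_le _
  have hUD : ∀ᶠ z in (U : Filter ℂ), z ∈ D := hUL (mem_inf_of_right (mem_principal_self D))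
  have hUw : Tendsto F U (𝓝 w) := tendsto_iff_comap.mpr (hUL.trans inf_le_left)
  obtain ⟨e, -, hle⟩ := (isCompact_univ (X := OnePoint ℂ)).ultrafilter_le_nhds
    (U.map (fun z : ℂ => (z : OnePoint ℂ))) (by simp)
  have hUe : Tendsto (fun z : ℂ => (z : OnePoint ℂ)) U (𝓝 e) := hle
  have he : e ∈ cpl D := by
    rintro ⟨z₀, hz₀, rfl⟩
    have h1 : Tendsto (fun z : ℂ => z) U (𝓝 z₀) := by
      have := tendsto_iff_comap.mp hUe
      rw [OnePoint.comap_coe_nhds] at this
      exact this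
    have h2 : Tendsto F U (𝓝 (F z₀)) :=
      ((hF.holo.continuousOn.continuousAt (hD.mem_nhds hz₀)).tendsto.comp h1)
    have h3 := tendsto_nhds_unique hUw h2
    have h4 := hsub ⟨z₀, hz₀, rfl⟩
    rw [← h3, mem_ball, dist_zero_right, hwn] at h4
    exact lt_irrefl _ h4
  have htype : ∀ η, TestFn D η → per η (ldq F 0) = π * ext η e := fun η hη =>
    type_of_tendsto hD hDc h0 hF hR he hUD hUe (by rw [← hwn]; exact hUw.norm) hη
  refine ⟨_, comp_mem_comps he, hF, hR, fun e' he' => ?_⟩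
  exact tendsto_of_type hD hDc h0 hF hR (comp_mem_comps he) (mem_connectedComponentIn he) he' htype

theorem removable_contra {h : ℂ → ℂ} {a : ℂ} {R : ℝ} (hd : ∀ᶠ z in 𝓝[≠] a, DifferentiableAt ℂ h z)
    (hb : ∀ᶠ z in 𝓝[≠] a, ‖h z‖ < R) (hl : Tendsto (fun z => ‖h z‖) (𝓝[≠] a) (𝓝 R)) : False := by
  have hev := hd.and hb
  rw [eventually_nhdsWithin_iff] at hev
  obtain ⟨δ, hδ, hδs⟩ := Metric.eventually_nhds_iff_ball.mp hev
  have hdiff : DifferentiableOn ℂ h (ball a δ \ {a}) := fun z hz =>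
    ((hδs z hz.1 hz.2).1).differentiableWithinAt
  have hbdd : BddAbove (norm ∘ h '' (ball a δ \ {a})) := by
    refine ⟨R, ?_⟩
    rintro _ ⟨z, hz, rfl⟩
    exact (hδs z hz.1 hz.2).2.le
  have h1 := Complex.differentiableOn_update_limUnder_of_bddAbove (ball_mem_nhds a hδ) hdiff hbdd
  set g : ℂ → ℂ := Function.update h a (limUnder (𝓝[≠] a) h) with hg
  have hga : ContinuousAt g a := (h1.differentiableAt (ball_mem_nhds a hδ)).continuousAt
  have hgh : ∀ z, z ≠ a → g z = h z := fun z hz => Function.update_of_ne hz _ _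
  have h2 : Tendsto (fun z => ‖g z‖) (𝓝[≠] a) (𝓝 ‖g a‖) :=
    hga.norm.tendsto.mono_left nhdsWithin_le_nhds
  have h3 : Tendsto (fun z => ‖g z‖) (𝓝[≠] a) (𝓝 R) := by
    apply hl.congr'
    filter_upwards [self_mem_nhdsWithin] with z hz
    rw [hgh z hz]
  have h4 : ‖g a‖ = R := tendsto_nhds_unique h2 h3
  have h5 : IsLocalMax (norm ∘ g) a := by
    filter_upwards [ball_mem_nhds a hδ] with z hz
    simp only [Function.comp]
    rw [h4]
    by_cases hza : z = a
    · rw [hza, h4]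
    · rw [hgh z hza]; exact (hδs z hz hza).2.le
  have h6 : ∀ᶠ z in 𝓝 a, DifferentiableAt ℂ g z := by
    filter_upwards [isOpen_ball.mem_nhds (mem_ball_self hδ)] with z hz
    exact h1.differentiableAt (isOpen_ball.mem_nhds hz)
  have h7 := Complex.eventually_eq_of_isLocalMax_norm h6 h5
  have h8 : ∀ᶠ z in 𝓝[≠] a, g z = g a := h7.filter_mono nhdsWithin_le_nhds
  obtain ⟨z, hz1, hz2, hz3⟩ := (h8.and (hb.and self_mem_nhdsWithin)).exists
  rw [hgh z hz3] at hz1
  rw [hz1, h4] at hz2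
  exact lt_irrefl _ hz2

/-- A component attached to a circular slit map is nondegenerate. -/
theorem IsCircularSlitMap.nontrivial (hD : IsOpen D)
    (hfin : (comps D).Finite) {E : Set (OnePoint ℂ)} (hE : E ∈ comps D)
    (h : IsCircularSlitMap D E R F) : E.Nontrivial := by
  by_contra hnt
  rw [not_nontrivial_iff] at hnt
  obtain ⟨e, he⟩ := comps_nonempty hE
  have hsub : F '' D ⊆ ball 0 R := by
    obtain ⟨-, m, ρ, α, β, -, -, him⟩ := h.image
    rw [him]; exact sdiff_subset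
  have hlt : ∀ z ∈ D, ‖F z‖ < R := fun z hz => by
    have := hsub ⟨z, hz, rfl⟩
    rwa [mem_ball, dist_zero_right] at this
  -- a neighbourhood of `e` meets the complement only in `e`
  have hO : (⋃₀ (comps D \ {E}))ᶜ ∈ 𝓝 e := by
    apply IsOpen.mem_nhds
    · rw [isOpen_compl_iff, sUnion_eq_biUnion]
      apply (hfin.subset sdiff_subset).isClosed_biUnion
      intro E' hE'
      exact comps_isClosed hD hE'.1
    · rintro ⟨E', ⟨hE', hne⟩, heE'⟩
      exact hne (comps_eq hE' hE heE' he)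
  have hOD : ∀ z : ℂ, (z : OnePoint ℂ) ∈ (⋃₀ (comps D \ {E}))ᶜ → (z : OnePoint ℂ) ≠ e → z ∈ D := by
    intro z hz hze
    by_contra hzD
    have h1 := coe_mem_cpl.mpr hzD
    by_cases h2 : connectedComponentIn (cpl D) (z : OnePoint ℂ) = E
    · have h3 := mem_connectedComponentIn h1
      rw [h2] at h3
      exact hze (hnt h3 he)
    · exact hz ⟨_, ⟨comp_mem_comps h1, h2⟩, mem_connectedComponentIn h1⟩
  have hout := h.outer e he
  induction e using OnePoint.rec with
  | coe e₀ =>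
    have h1 : ∀ᶠ z in 𝓝[≠] e₀, z ∈ D := by
      have h2 : ∀ᶠ z : ℂ in 𝓝 e₀, (z : OnePoint ℂ) ∈ (⋃₀ (comps D \ {E}))ᶜ :=
        (OnePoint.continuous_coe.tendsto e₀).eventually hO
      filter_upwards [h2.filter_mono nhdsWithin_le_nhds, self_mem_nhdsWithin] with z hz hze
      exact hOD z hz (fun hh => hze (OnePoint.coe_eq_coe.mp hh))
    apply removable_contra (h := F) (a := e₀) (R := R)
    · filter_upwards [h1] with z hz using h.inS.holo.differentiableAt (hD.mem_nhds hz)
    · filter_upwards [h1] with z hz using hlt z hz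
    · rw [OnePoint.comap_coe_nhds] at hout
      apply hout.mono_left
      exact le_inf nhdsWithin_le_nhds (le_principal_iff.mpr h1)
  | infty =>
    have h1 : ∀ᶠ z in cocompact ℂ, z ∈ D := by
      rw [← coclosedCompact_eq_cocompact, ← OnePoint.comap_coe_nhds_infty]
      have h2 : ∀ᶠ z : ℂ in comap (fun z : ℂ => (z : OnePoint ℂ)) (𝓝 ∞),
          (z : OnePoint ℂ) ∈ (⋃₀ (comps D \ {E}))ᶜ := tendsto_comap.eventually hO
      filter_upwards [h2] with z hz
      exact hOD z hz (OnePoint.coe_ne_infty z)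
    have hinv : Tendsto (fun u : ℂ => u⁻¹) (𝓝[≠] 0) (cocompact ℂ) := by
      rw [← Metric.cobounded_eq_cocompact]
      exact tendsto_inv₀_nhdsNE_zero
    have h2 : ∀ᶠ u in 𝓝[≠] (0 : ℂ), u⁻¹ ∈ D := hinv.eventually h1
    apply removable_contra (h := fun u => F u⁻¹) (a := 0) (R := R)
    · filter_upwards [h2, self_mem_nhdsWithin] with u hu hu0
      exact DifferentiableAt.comp u (h.inS.holo.differentiableAt (hD.mem_nhds hu))
        (differentiableAt_inv hu0)
    · filter_upwards [h2] with u hu using hlt _ hu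
    · apply hout.comp (f := fun u : ℂ => u⁻¹)
      rw [tendsto_inf, tendsto_principal]
      refine ⟨?_, h2⟩
      rw [OnePoint.comap_coe_nhds_infty, coclosedCompact_eq_cocompact]
      exact hinv

end

end Pool.Agent.H62
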