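import Mathlib
import Pool.Agent.H62.Final

/-!
# The minimal area problem: main theorem
-/

open MeasureTheory Set Complex Metric Filter Topology
open scoped Real OnePoint

namespace Pool.Agent.H62

section

variable {D : Set ℂ} {f F k η : ℂ → ℂ} {R : ℝ}

/-- The complement in the plane of a bounded component is connected. -/
theorem compl_bounded_comp (hD : IsOpen D) (hDc : IsPreconnected D) (hne : D.Nonempty)
    (hfin : (comps D).Finite) {E : Set (OnePoint ℂ)} (hE : E ∈ comps D) (hinf : ∞ ∉ E) :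
    IsPreconnected ((↑) ⁻¹' E : Set ℂ)ᶜ := by
  obtain ⟨hKc, -, hKim⟩ := comp_compact hD hE hinf
  set K : Set ℂ := (↑) ⁻¹' E with hK
  -- `Eᶜ` is connected in the sphere
  have hEc : IsPreconnected (Eᶜ : Set (OnePoint ℂ)) := by
    have h1 := union_preconn hD hDc hne hfin (F := comps D \ {E}) sdiff_subset
    have h2 : ((↑) '' D : Set (OnePoint ℂ)) ∪ ⋃₀ (comps D \ {E}) = Eᶜ := by
      ext x
      constructor
      · rintro (⟨z, hz, rfl⟩ | ⟨E', ⟨hE', hne'⟩, hx⟩) hxE
        · exact coe_mem_cpl.mp (comps_subset hE hxE) hz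
        · exact hne' (comps_eq hE' hE hx hxE)
      · intro hx
        by_cases h3 : x ∈ cpl D
        · right
          refine ⟨_, ⟨comp_mem_comps h3, fun h4 => hx ?_⟩, mem_connectedComponentIn h3⟩
          rw [← mem_singleton_iff.mp h4]
          exact mem_connectedComponentIn h3
        · left
          by_contra h4; exact h3 h4
    rwa [h2] at h1
  obtain ⟨r, hr⟩ := hKc.isBounded.subset_closedBall 0
  have hr' : K ⊆ closedBall 0 (max r 0) := hr.trans (closedBall_subset_closedBall (le_max_left _ _))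
  have hext : IsPreconnected {z : ℂ | max r 0 < ‖z‖} := isPreconnected_exterior (le_max_right _ _)
  have hextK : {z : ℂ | max r 0 < ‖z‖} ⊆ Kᶜ := by
    intro z hz hzK
    have h1 := hr' hzK
    rw [mem_closedBall, dist_zero_right] at h1
    have h2 : max r 0 < ‖z‖ := hz
    linarith
  have hKo : IsOpen Kᶜ := hKc.isClosed.isOpen_compl
  -- main argument
  have hmain : ∀ A B : Set ℂ, IsOpen A → IsOpen B → Kᶜ ⊆ A ∪ B → A ∩ B ∩ Kᶜ = ∅ →
      {z : ℂ | max r 0 < ‖z‖} ⊆ A → (Kᶜ ∩ B).Nonempty → False := by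
    intro A B hA hB hcov hdisj hextA hBne
    have hA'o : IsOpen ((↑) '' (A ∩ Kᶜ) ∪ {∞} : Set (OnePoint ℂ)) := by
      rw [OnePoint.isOpen_iff_of_mem (Or.inr rfl)]
      have h1 : ((↑) ⁻¹' ((↑) '' (A ∩ Kᶜ) ∪ {∞} : Set (OnePoint ℂ)) : Set ℂ) = A ∩ Kᶜ := by
        rw [preimage_union, OnePoint.coe_preimage_infty, union_empty,
          preimage_image_eq _ OnePoint.coe_injective]
      rw [h1]
      refine ⟨(hA.inter hKo).isClosed_compl, ?_⟩
      apply (isCompact_closedBall (0 : ℂ) (max r 0)).of_isClosed_subset (hA.inter hKo).isClosed_compl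
      intro z hz
      rw [mem_closedBall, dist_zero_right]
      by_contra hlt
      rw [not_le] at hlt
      exact hz ⟨hextA hlt, hextK hlt⟩
    have hB'o : IsOpen ((↑) '' (B ∩ Kᶜ) : Set (OnePoint ℂ)) :=
      OnePoint.isOpen_image_coe.mpr (hB.inter hKo)
    obtain ⟨z, hzK, hzB⟩ := hBne
    obtain ⟨x, -, hx1, hx2⟩ := hEc _ _ hA'o hB'o (by
      intro x hx
      induction x using OnePoint.rec with
      | infty => exact Or.inl (Or.inr rfl)
      | coe y =>
        have hyK : y ∈ Kᶜ := fun h => hx h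
        rcases hcov hyK with h | h
        · exact Or.inl (Or.inl ⟨y, ⟨h, hyK⟩, rfl⟩)
        · exact Or.inr ⟨y, ⟨h, hyK⟩, rfl⟩)
      ⟨∞, hinf, Or.inr rfl⟩ ⟨(z : OnePoint ℂ), fun h => hzK h, ⟨z, ⟨hzB, hzK⟩, rfl⟩⟩
    obtain ⟨y, ⟨hyB, hyK⟩, rfl⟩ := hx2
    rcases hx1 with ⟨y', ⟨hyA, -⟩, hyy⟩ | h
    · rw [OnePoint.coe_eq_coe] at hyy
      rw [hyy] at hyA
      have : y ∈ A ∩ B ∩ Kᶜ := ⟨⟨hyA, hyB⟩, hyK⟩
      rw [hdisj] at this
      exact this
    · exact OnePoint.coe_ne_infty y h
  rw [isPreconnected_iff_subset_of_disjoint]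
  intro A B hA hB hcov hdisj
  have hdisj' : A ∩ B ∩ Kᶜ = ∅ := by rw [inter_comm]; exact hdisj
  rcases isPreconnected_iff_subset_of_disjoint.mp hext A B hA hB (hextK.trans hcov) (by
    rw [← subset_empty_iff, ← hdisj]
    exact inter_subset_inter_left _ hextK) with h | h
  · left
    by_contra hcon
    rw [not_subset] at hcon
    obtain ⟨z, hz, hzA⟩ := hcon
    exact hmain A B hA hB hcov hdisj' h ⟨z, hz, (hcov hz).resolve_left hzA⟩
  · right
    by_contra hcon
    rw [not_subset] at hcon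
    obtain ⟨z, hz, hzB⟩ := hcon
    refine hmain B A hB hA (by rw [union_comm]; exact hcov) (by rw [inter_comm B A]; exact hdisj') h
      ⟨z, hz, (hcov hz).resolve_right hzB⟩

/-- The plane minus the unbounded component. -/
theorem exists_adm_infty (hD : IsOpen D) (hDc : IsPreconnected D) (h0 : (0 : ℂ) ∈ D)
    (hfin : (comps D).Finite) {x : ℂ}
    (hx : (x : OnePoint ℂ) ∈ connectedComponentIn (cpl D) ∞) : ∃ g k, Adm D g k := by
  set E := connectedComponentIn (cpl D) ∞ with hE
  have hEc : E ∈ comps D := comp_mem_comps infty_mem_cpl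
  have hinf : (∞ : OnePoint ℂ) ∈ E := mem_connectedComponentIn infty_mem_cpl
  set V : Set ℂ := {z : ℂ | (z : OnePoint ℂ) ∉ E} with hV
  have hVo : IsOpen V := (comps_isClosed hD hEc).isOpen_compl.preimage OnePoint.continuous_coe
  have hVc : IsPreconnected V := by
    have := compl_preconn hD hDc ⟨0, h0⟩ hfin (G := {E}) (by simpa using hEc)
      (by simpa using hinf)
    simpa using this
  have hDV : D ⊆ V := fun z hz hzE => coe_mem_cpl.mp (comps_subset hEc hzE) hz
  have hVne : V ≠ univ := by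
    intro h
    have : x ∈ V := by rw [h]; exact mem_univ _
    exact this hx
  obtain ⟨g, k, hA⟩ := exists_adm_of_noHoles hVo hVc (hDV h0) noHoles_compl_infty hVne
  exact ⟨g, k, hA.mono hDV⟩

/-- Existence of the circular slit map attached to a nondegenerate component. -/
theorem exists_circularSlitMap (hD : IsOpen D) (hDc : IsPreconnected D) (h0 : (0 : ℂ) ∈ D)
    (hfin : (comps D).Finite) {E : Set (OnePoint ℂ)} (hE : E ∈ comps D) (hnt : E.Nontrivial) :
    ∃ R F, IsCircularSlitMap D E R F := by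
  by_cases hinf : (∞ : OnePoint ℂ) ∈ E
  · have hEeq := comps_eq_of_mem hE hinf
    obtain ⟨x, hx, hxne⟩ := hnt.exists_ne ∞
    induction x using OnePoint.rec with
    | infty => exact absurd rfl hxne
    | coe x =>
      rw [hEeq] at hx
      obtain ⟨g, κ, hA⟩ := exists_adm_infty hD hDc h0 hfin hx
      obtain ⟨F, R, k, hk, hFk, hFd, hFi, hF0, hF1, hR⟩ := exists_circular hD hDc h0 hfin
        (M := fun z => z) differentiableOn_id (injOn_id D) rfl (deriv_id 0) hA.diff hA.inj hA.maps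
        hA.eq
      have hS : InS D F := ⟨hFd, hFi, hF0, hF1⟩
      refine ⟨R, F, hS, hR, fun e he => ?_⟩
      apply tendsto_of_type hD hDc h0 hS hR hE hinf he
      intro η hη
      rw [per_ldq_mul_exp hD h0 differentiableOn_id (injOn_id D) rfl hk hFk hη, ext_infty,
        mul_zero]
      exact per_ldq_id η
  · obtain ⟨hKc, hKp, hKim⟩ := comp_compact hD hE hinf
    set K : Set ℂ := (↑) ⁻¹' E with hK
    obtain ⟨e, he⟩ := exists_pt_of_comp hE hinf
    have heD : e ∉ D := coe_mem_cpl.mp (comps_subset hE he)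
    have he0 : e ≠ 0 := by rintro rfl; exact heD h0
    have hKD : ∀ z ∈ K, z ∉ D := fun z hz => coe_mem_cpl.mp (comps_subset hE hz)
    have hKcc : IsPreconnected Kᶜ := compl_bounded_comp hD hDc ⟨0, h0⟩ hfin hE hinf
    set N : Set ℂ := (fun x => e - x) '' K with hN
    have hNc : IsCompact N := hKc.image (by fun_prop)
    have hNp : IsPreconnected N := hKp.image _ (by fun_prop)
    have h0N : (0 : ℂ) ∈ N := ⟨e, he, sub_self e⟩
    have hNcc : IsPreconnected Nᶜ := by
      have h1 : Nᶜ = (fun x => e - x) '' Kᶜ := by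
        rw [hN, ← image_compl_eq]
        exact (Equiv.subLeft e).bijective
      rw [h1]
      exact hKcc.image _ (by fun_prop)
    have hVne : invDom N ≠ univ := by
      obtain ⟨x, hx, hxne⟩ := hnt.exists_ne (e : OnePoint ℂ)
      induction x using OnePoint.rec with
      | infty => exact absurd hx hinf
      | coe x =>
        have h3 : e - x ∈ N := ⟨x, hx, rfl⟩
        apply invDom_ne_univ h3
        intro h
        apply hxne
        rw [sub_eq_zero.mp h]
    set V : Set ℂ := invDom N with hV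
    have hVo : IsOpen V := isOpen_invDom hNc
    have hVc : IsPreconnected V := isPreconnected_invDom hNc h0N hNcc
    have hVnh : NoHoles V := noHoles_invDom h0N hNp
    have h0V : (0 : ℂ) ∈ V := zero_mem_invDom
    obtain ⟨g, kg, hg, -⟩ := riemann hVo hVc h0V hVnh hVne
    have hDV : ∀ z ∈ D, (e - z)⁻¹ ∈ V := by
      intro z hz
      right
      rw [inv_inv]
      rintro ⟨x, hx, hxz⟩
      simp only at hxz
      have : x = z := by linear_combination -hxz
      rw [this] at hx
      exact hKD z hx hz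
    set u₀ : ℂ := e⁻¹ with hu₀
    have hu₀V : u₀ ∈ V := by
      have := hDV 0 h0
      rwa [sub_zero] at this
    have hgu : ‖g u₀‖ < 1 := hg.maps u₀ hu₀V
    set φ : ℂ → ℂ := fun u => mob (g u₀) (g u) with hφ
    have hφd : DifferentiableOn ℂ φ V := by
      intro u hu
      have h1 := (hasDerivAt_mob hgu (hg.maps u hu)).differentiableAt
      exact (h1.comp u (hg.differentiableOn.differentiableAt (hVo.mem_nhds hu))).differentiableWithinAt
    have hφi : InjOn φ V := fun a ha b hb hab =>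
      hg.inj ha hb (mob_inj hgu (hg.maps a ha) (hg.maps b hb) hab)
    have hφ0 : φ u₀ = 0 := mob_self _
    have hφb : ∀ u ∈ V, ‖φ u‖ < 1 := fun u hu => mob_norm_lt hgu (hg.maps u hu)
    obtain ⟨d1, d2, -⟩ := dslope_props hVo hφd hφi hu₀V
    obtain ⟨l, hl, hle⟩ := hVnh.exists_log hVo hVc d1 d2
    have hφl : ∀ u ∈ V, φ u = (u - u₀) * exp (l u) := by
      intro u hu
      rw [← hle u hu]
      by_cases h : u = u₀
      · rw [h, hφ0, sub_self, zero_mul]
      · rw [dslope_of_ne _ h, slope_def_field, hφ0, sub_zero]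
        have : u - u₀ ≠ 0 := sub_ne_zero.mpr h
        field_simp
    have hne : ∀ z ∈ D, e - z ≠ 0 := fun z hz h => heD (by rw [sub_eq_zero.mp h]; exact hz)
    have hinvd : DifferentiableOn ℂ (fun z => (e - z)⁻¹) D :=
      (differentiableOn_id.const_sub e).inv hne
    have hDe : D ⊆ {e}ᶜ := by
      rintro z hz hze
      rw [mem_singleton_iff.mp hze] at hz
      exact heD hz
    have hMd : DifferentiableOn ℂ (moeb e) D := fun z hz =>
      (hasDerivAt_moeb (hDe hz)).differentiableAt.differentiableWithinAt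
    have hMi : InjOn (moeb e) D := (moeb_injOn he0).mono hDe
    have hM0 : moeb e 0 = 0 := by simp [moeb]
    have hM1 : deriv (moeb e) 0 = 1 := by
      rw [(hasDerivAt_moeb (Ne.symm he0)).deriv, sub_zero]
      field_simp
    obtain ⟨F, R, k, hk, hFk, hFd, hFi, hF0, hF1, hR⟩ := exists_circular hD hDc h0 hfin
      (M := moeb e) (gE := fun z => φ (e - z)⁻¹) (κ := fun z => l (e - z)⁻¹ - 2 * log e)
      hMd hMi hM0 hM1 ((hl.comp hinvd hDV).sub_const _) (by
        intro a ha b hb hab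
        have h1 := hφi (hDV a ha) (hDV b hb) hab
        have h2 := inv_injective h1
        linear_combination -h2) (fun z hz => hφb _ (hDV z hz)) (by
        intro z hz
        rw [hφl _ (hDV z hz), exp_sub]
        have h3 : exp (2 * log e) = e ^ 2 := by
          rw [two_mul, exp_add, exp_log he0]; ring
        rw [h3, moeb, hu₀]
        have h4 := hne z hz
        field_simp
        ring)
    have hS : InS D F := ⟨hFd, hFi, hF0, hF1⟩
    refine ⟨R, F, hS, hR, fun e' he' => ?_⟩
    apply tendsto_of_type hD hDc h0 hS hR hE he he'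
    intro η hη
    rw [per_ldq_mul_exp hD h0 hMd hMi hM0 hk hFk hη, ext_coe]
    exact per_ldq_moeb hD heD h0 hη

theorem IsCircularSlitMap.le_dirichlet (hD : IsOpen D) (h : IsCircularSlitDisc (F '' D) R)
    (hF : InS D F) : dirichlet D F ≤ ENNReal.ofReal (π * R ^ 2) :=
  dirichlet_le hD hF.holo hF.inj h

theorem sq_le_of_ofReal_le {a b : ℝ} (hb : 0 < b)
    (h : ENNReal.ofReal (π * a ^ 2) ≤ ENNReal.ofReal (π * b ^ 2)) : a ≤ b := by
  have h1 := (ENNReal.ofReal_le_ofReal_iff (by positivity)).mp h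
  have h2 : a ^ 2 ≤ b ^ 2 := le_of_mul_le_mul_left h1 Real.pi_pos
  exact le_of_sq_le_sq h2 hb.le

/-- Two circular slit maps attached to the same component agree. -/
theorem IsCircularSlitMap.unique (hD : IsOpen D) (hDc : IsPreconnected D) (h0 : (0 : ℂ) ∈ D)
    (hfin : (comps D).Finite) {E : Set (OnePoint ℂ)} (hE : E ∈ comps D) {R' : ℝ} {F' : ℂ → ℂ}
    (h : IsCircularSlitMap D E R F) (h' : IsCircularSlitMap D E R' F') :
    R = R' ∧ EqOn F F' D := by
  obtain ⟨e, he⟩ := comps_nonempty hE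
  have ht := fun η (hη : TestFn D η) => h.type hD hDc h0 hfin hE he hη
  have ht' := fun η (hη : TestFn D η) => h'.type hD hDc h0 hfin hE he hη
  have c1 := comp_le hD hDc h0 h.inS.holo h.inS.inj h.inS.zero h.inS.deriv_one h'.inS.holo
    h'.inS.inj h'.inS.zero h'.inS.deriv_one h'.image (fun η hη => by rw [ht η hη, ht' η hη])
  have c2 := comp_le hD hDc h0 h'.inS.holo h'.inS.inj h'.inS.zero h'.inS.deriv_one h.inS.holo
    h.inS.inj h.inS.zero h.inS.deriv_one h.image (fun η hη => by rw [ht η hη, ht' η hη])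
  have d1 := dirichlet_le hD h.inS.holo h.inS.inj h.image
  have d2 := dirichlet_le hD h'.inS.holo h'.inS.inj h'.image
  have hR : R ≤ R' := sq_le_of_ofReal_le h'.image.1 (c2.1.trans d2)
  have hR' : R' ≤ R := sq_le_of_ofReal_le h.image.1 (c1.1.trans d1)
  have heq : R = R' := le_antisymm hR hR'
  refine ⟨heq, c1.2 ?_⟩
  rw [← heq]; exact d1

theorem dirichlet_eq (hD : IsOpen D) (hDc : IsPreconnected D) (h0 : (0 : ℂ) ∈ D)
    (hF : InS D F) (hR : IsCircularSlitDisc (F '' D) R) :
    dirichlet D F = ENNReal.ofReal (π * R ^ 2) :=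
  le_antisymm (dirichlet_le hD hF.holo hF.inj hR)
    (comp_le hD hDc h0 hF.holo hF.inj hF.zero hF.deriv_one hF.holo hF.inj hF.zero hF.deriv_one hR
      (fun _ _ => rfl)).1

/-- The key inequality. -/
theorem exists_le (hD : IsOpen D) (hDc : IsPreconnected D) (h0 : (0 : ℂ) ∈ D)
    (hfin : (comps D).Finite) (hf : InS D f) (hfI : dirichlet D f ≠ ⊤) :
    ∃ E ∈ comps D, ∃ R G, IsCircularSlitMap D E R G ∧
      ENNReal.ofReal (π * R ^ 2) ≤ dirichlet D f ∧
      (dirichlet D f ≤ ENNReal.ofReal (π * R ^ 2) → EqOn f G D) := by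
  have hΩo : IsOpen (f '' D) := isOpen_image hD hf.holo hf.inj hD subset_rfl
  have hΩc : IsPreconnected (f '' D) := hDc.image _ hf.holo.continuousOn
  have hΩ0 : (0 : ℂ) ∈ f '' D := ⟨0, h0, hf.zero⟩
  have hΩfin : (comps (f '' D)).Finite := comps_finite_image hD hDc hfin hf.holo hf.inj
  have hvol : volume (f '' D) ≠ ⊤ := by
    rw [volume_image_eq hD hf.holo subset_rfl hD.measurableSet hf.inj]; exact hfI
  -- the unbounded component contains a finite point
  obtain ⟨x, hx⟩ : ∃ x : ℂ, (x : OnePoint ℂ) ∈ connectedComponentIn (cpl (f '' D)) ∞ := by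
    by_contra hcon
    push Not at hcon
    set E := connectedComponentIn (cpl (f '' D)) ∞ with hE
    have hEc : E ∈ comps (f '' D) := comp_mem_comps infty_mem_cpl
    have hinf : (∞ : OnePoint ℂ) ∈ E := mem_connectedComponentIn infty_mem_cpl
    have hcl : IsClosed (⋃₀ (comps (f '' D) \ {E})) := by
      rw [sUnion_eq_biUnion]
      apply (hΩfin.subset sdiff_subset).isClosed_biUnion
      intro E' hE'
      exact comps_isClosed hΩo hE'.1
    have hni : (∞ : OnePoint ℂ) ∉ ⋃₀ (comps (f '' D) \ {E}) := by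
      rintro ⟨E', ⟨hE', hne⟩, h⟩
      exact hne (comps_eq hE' hEc h hinf)
    have hcomp := ((OnePoint.isClosed_iff_of_notMem hni).mp hcl).2
    have hsub : (f '' D)ᶜ ⊆ ((↑) ⁻¹' (⋃₀ (comps (f '' D) \ {E})) : Set ℂ) := by
      intro z hz
      have h1 := coe_mem_cpl.mpr hz
      refine ⟨_, ⟨comp_mem_comps h1, fun h2 => ?_⟩, mem_connectedComponentIn h1⟩
      apply hcon z
      rw [← mem_singleton_iff.mp h2]
      exact mem_connectedComponentIn h1
    have h3 : volume (univ : Set ℂ) ≤ volume (f '' D) +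
        volume ((↑) ⁻¹' (⋃₀ (comps (f '' D) \ {E})) : Set ℂ) := by
      refine le_trans (measure_mono ?_) (measure_union_le _ _)
      intro z _
      by_cases hz : z ∈ f '' D
      · exact Or.inl hz
      · exact Or.inr (hsub hz)
    have h4 : volume (univ : Set ℂ) = ⊤ := measure_univ_of_isAddLeftInvariant _
    rw [h4, top_le_iff, ENNReal.add_eq_top] at h3
    rcases h3 with h3 | h3
    · exact hvol h3
    · exact hcomp.measure_lt_top.ne h3
  obtain ⟨g, κ, hA⟩ := exists_adm_infty hΩo hΩc hΩ0 hΩfin hx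
  have hmap : MapsTo f D (f '' D) := mapsTo_image f D
  obtain ⟨G, R, k, hk, hGk, hGd, hGi, hG0, hG1, hR⟩ := exists_circular hD hDc h0 hfin
    (M := f) (gE := fun z => g (f z)) (κ := fun z => κ (f z)) hf.holo hf.inj hf.zero hf.deriv_one
    (hA.diff.comp hf.holo hmap) (fun a ha b hb hab => hf.inj ha hb (hA.inj (hmap ha) (hmap hb) hab))
    (fun z hz => hA.maps _ (hmap hz)) (fun z hz => hA.eq _ (hmap hz))
  have hS : InS D G := ⟨hGd, hGi, hG0, hG1⟩
  obtain ⟨E, hE, hEG⟩ := exists_comp_of_circular hD hDc h0 hS hR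
  refine ⟨E, hE, R, G, hEG, ?_⟩
  exact comp_le hD hDc h0 hf.holo hf.inj hf.zero hf.deriv_one hGd hGi hG0 hG1 hR
    (fun η hη => (per_ldq_mul_exp hD h0 hf.holo hf.inj hf.zero hk hGk hη).symm)

/-- If `f = G` on `D` and `G` is a circular slit map then so is `f`. -/
theorem IsCircularSlitMap.congr {E : Set (OnePoint ℂ)} {G : ℂ → ℂ}
    (h : IsCircularSlitMap D E R G) (hf : InS D f) (heq : EqOn f G D) :
    IsCircularSlitMap D E R f := by
  refine ⟨hf, ?_, fun e he => ?_⟩
  · rw [heq.image_eq]; exact h.image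
  · apply (h.outer e he).congr'
    filter_upwards [mem_inf_of_right (mem_principal_self D)] with z hz
    rw [heq hz]

end

/-- **Main theorem.** -/
theorem main {D : Set ℂ} (hD : IsOpen D) (hDc : IsPreconnected D) (h0 : (0 : ℂ) ∈ D)
    (hfin : (comps D).Finite) :
    (∀ E ∈ comps D, (∃ R F, IsCircularSlitMap D E R F) ↔ E.Nontrivial) ∧
    (∀ E ∈ comps D, ∀ R R' F F', IsCircularSlitMap D E R F → IsCircularSlitMap D E R' F' →
      R = R' ∧ EqOn F F' D) ∧
    ((∃ E ∈ comps D, E.Nontrivial) →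
      ∃ E ∈ comps D, ∃ R F, IsCircularSlitMap D E R F ∧
        (∀ E' ∈ comps D, ∀ R' F', IsCircularSlitMap D E' R' F' → R ≤ R') ∧
        dirichlet D F = ENNReal.ofReal (π * R ^ 2) ∧
        ∀ f, IsMinimiser D f ↔ ∃ E' ∈ comps D, IsCircularSlitMap D E' R f) ∧
    ((∀ E ∈ comps D, ¬ E.Nontrivial) → ∀ f, InS D f → dirichlet D f = ⊤) := by
  have p1 : ∀ E ∈ comps D, (∃ R F, IsCircularSlitMap D E R F) ↔ E.Nontrivial := by
    intro E hE
    constructor
    · rintro ⟨R, F, h⟩; exact h.nontrivial hD hfin hE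
    · exact exists_circularSlitMap hD hDc h0 hfin hE
  have p2 : ∀ E ∈ comps D, ∀ R R' F F', IsCircularSlitMap D E R F →
      IsCircularSlitMap D E R' F' → R = R' ∧ EqOn F F' D := fun E hE R R' F F' h h' =>
    h.unique hD hDc h0 hfin hE h'
  refine ⟨p1, p2, ?_, ?_⟩
  · rintro ⟨E₁, hE₁, hnt₁⟩
    -- choose the smallest radius
    have hex : ∀ E : {E // E ∈ comps D ∧ E.Nontrivial}, ∃ R F, IsCircularSlitMap D E.1 R F :=
      fun E => (p1 E.1 E.2.1).mpr E.2.2
    choose r F hrF using hex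
    have hfin' : Finite {E // E ∈ comps D ∧ E.Nontrivial} :=
      (hfin.subset (fun E hE => hE.1) : {E | E ∈ comps D ∧ E.Nontrivial}.Finite).to_subtype
    have hne : Nonempty {E // E ∈ comps D ∧ E.Nontrivial} := ⟨⟨E₁, hE₁, hnt₁⟩⟩
    obtain ⟨E, hEmin⟩ := Finite.exists_min r
    have hmin : ∀ E' ∈ comps D, ∀ R' F', IsCircularSlitMap D E' R' F' → r E ≤ R' := by
      intro E' hE' R' F' h'
      have hnt := (p1 E' hE').mp ⟨R', F', h'⟩
      have h1 := (p2 E' hE' _ _ _ _ (hrF ⟨E', hE', hnt⟩) h').1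
      rw [← h1]; exact hEmin _
    refine ⟨E.1, E.2.1, r E, F E, hrF E, hmin, dirichlet_eq hD hDc h0 (hrF E).inS (hrF E).image,
      fun f => ?_⟩
    have hRpos : 0 < r E := (hrF E).image.1
    constructor
    · rintro ⟨hf, hfmin⟩
      have hle := hfmin _ (hrF E).inS
      rw [dirichlet_eq hD hDc h0 (hrF E).inS (hrF E).image] at hle
      have hfI : dirichlet D f ≠ ⊤ := (lt_of_le_of_lt hle ENNReal.ofReal_lt_top).ne
      obtain ⟨E', hE', R', G, hG, h1, h2⟩ := exists_le hD hDc h0 hfin hf hfI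
      have hR1 : R' ≤ r E := sq_le_of_ofReal_le hRpos (h1.trans hle)
      have hR2 : r E ≤ R' := hmin E' hE' R' G hG
      have hReq : R' = r E := le_antisymm hR1 hR2
      subst hReq
      exact ⟨E', hE', hG.congr hf (h2 hle)⟩
    · rintro ⟨E', hE', hf⟩
      refine ⟨hf.inS, fun g hg => ?_⟩
      rw [dirichlet_eq hD hDc h0 hf.inS hf.image]
      by_cases hgI : dirichlet D g = ⊤
      · rw [hgI]; exact le_top
      · obtain ⟨E'', hE'', R'', G, hG, h1, -⟩ := exists_le hD hDc h0 hfin hg hgI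
        have h2 := hmin E'' hE'' R'' G hG
        refine le_trans (ENNReal.ofReal_le_ofReal ?_) h1
        gcongr
  · intro hdeg f hf
    by_contra hfI
    obtain ⟨E, hE, R, G, hG, -, -⟩ := exists_le hD hDc h0 hfin hf hfI
    exact hdeg E hE ((p1 E hE).mp ⟨R, G, hG⟩)

end Pool.Agent.H62
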