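import Mathlib
import Pool.Agent.H62.Main
import Pool.Agent.H62.Count

/-!
# The minimal area problem: final form
-/

open MeasureTheory Set Complex Metric Filter Topology
open scoped Real OnePoint

namespace Pool.Agent.H62

variable {D : Set ℂ} {F : ℂ → ℂ} {R : ℝ}

theorem slit_number (hD : IsOpen D) (hDc : IsPreconnected D) (hfin : (comps D).Finite)
    (hF : InS D F) {m : ℕ} (hR : IsSlitDisc (F '' D) R m) : (comps D).ncard = m + 1 := by
  rw [← ncard_comps_image hD hDc hfin hF.holo hF.inj]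
  obtain ⟨hR0, ρ, α, β, h, hd, him⟩ := hR
  rw [him]
  exact ncard_comps_slitDisc hR0 h hd

theorem comps_eq_of_ext (hD : IsOpen D) {E E' : Set (OnePoint ℂ)} (hE : E ∈ comps D)
    (hE' : E' ∈ comps D) {e e' : OnePoint ℂ} (he : e ∈ E) (he' : e' ∈ E')
    (h : ∀ η, TestFn D η → ext η e = ext η e') : E = E' := by
  by_contra hne
  have key : ∀ {E E' : Set (OnePoint ℂ)}, E ∈ comps D → E' ∈ comps D → E ≠ E' →
      ∀ {e e' : OnePoint ℂ}, e ∈ E → e' ∈ E' → ∞ ∉ E →
      ∃ η, TestFn D η ∧ ext η e = 1 ∧ ext η e' = 0 := by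
    intro E E' hE hE' hne e e' he he' hinf
    induction e using OnePoint.rec with
    | infty => exact absurd he hinf
    | coe x =>
      have hxD : x ∉ D := coe_mem_cpl.mp (comps_subset hE he)
      have hEx := comps_eq_of_mem hE he
      obtain ⟨θ, hθ, h1, h2⟩ := exists_test_sep hD hxD (T := {e'}) (finite_singleton _)
        (by rw [singleton_subset_iff]; exact comps_subset hE' he') (by
          intro y hy
          rw [mem_singleton_iff.mp hy, ← hEx]
          intro h3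
          exact hne (comps_eq hE hE' h3 he')) (by rw [← hEx]; exact hinf)
      exact ⟨θ, hθ, h1, h2 e' rfl⟩
  by_cases hinf : ∞ ∈ E
  · have hinf' : ∞ ∉ E' := fun h3 => hne (comps_eq hE hE' hinf h3)
    obtain ⟨η, hη, h1, h2⟩ := key hE' hE (Ne.symm hne) he' he hinf'
    rw [h η hη, h1] at h2
    exact one_ne_zero h2
  · obtain ⟨η, hη, h1, h2⟩ := key hE hE' hne he he' hinf
    rw [← h η hη, h1] at h2
    exact one_ne_zero h2

theorem main2 {D : Set ℂ} {m : ℕ} (hD : IsOpen D) (hDc : IsConnected D) (h0 : (0 : ℂ) ∈ D)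
    (hm : (comps D).ncard = m + 1) :
    (∀ E ∈ comps D, (∃ R F, IsSlitMap D m E R F) ↔ E.Nontrivial) ∧
    (∀ E ∈ comps D, ∀ R R' F F', IsSlitMap D m E R F → IsSlitMap D m E R' F' →
      R = R' ∧ EqOn F F' D) ∧
    (∀ R F m', InS D F → IsSlitDisc (F '' D) R m' →
      m' = m ∧ dirichlet D F = ENNReal.ofReal (π * R ^ 2) ∧
        ∃! E, E ∈ comps D ∧ IsSlitMap D m E R F) ∧
    ((∃ E ∈ comps D, E.Nontrivial) → (∃ f, IsMinimiser D f) ∧
      ∀ f, IsMinimiser D f ↔ ∃ E ∈ comps D, ∃ R, IsSlitMap D m E R f ∧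
        ∀ E' ∈ comps D, ∀ R' F', IsSlitMap D m E' R' F' → R ≤ R') ∧
    ((∀ E ∈ comps D, ¬ E.Nontrivial) → ∀ f, InS D f → dirichlet D f = ⊤) := by
  have hfin : (comps D).Finite := by
    apply Set.finite_of_ncard_ne_zero
    rw [hm]; exact Nat.succ_ne_zero m
  have hc := hDc.isPreconnected
  have hnum : ∀ {R F m'}, InS D F → IsSlitDisc (F '' D) R m' → m' = m := by
    intro R F m' hF hR
    have := slit_number hD hc hfin hF hR
    omega
  have hconv : ∀ {E R F}, IsCircularSlitMap D E R F → IsSlitMap D m E R F := by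
    intro E R F h
    obtain ⟨m', hm'⟩ := h.image.exists_slitDisc
    have := hnum h.inS hm'
    rw [this] at hm'
    exact ⟨h.inS, hm', h.outer⟩
  have hconv' : ∀ {E R F}, IsSlitMap D m E R F → IsCircularSlitMap D E R F := fun h =>
    ⟨h.inS, h.image.circular, h.outer⟩
  obtain ⟨p1, p2, p3, p4⟩ := main hD hc h0 hfin
  refine ⟨?_, ?_, ?_, ?_, ?_⟩
  · intro E hE
    rw [← p1 E hE]
    constructor
    · rintro ⟨R, F, h⟩; exact ⟨R, F, hconv' h⟩
    · rintro ⟨R, F, h⟩; exact ⟨R, F, hconv h⟩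
  · intro E hE R R' F F' h h'
    exact p2 E hE R R' F F' (hconv' h) (hconv' h')
  · intro R F m' hF hR
    refine ⟨hnum hF hR, dirichlet_eq hD hc h0 hF hR.circular, ?_⟩
    obtain ⟨E, hE, hEF⟩ := exists_comp_of_circular hD hc h0 hF hR.circular
    refine ⟨E, ⟨hE, hconv hEF⟩, ?_⟩
    rintro E' ⟨hE', hE'F⟩
    obtain ⟨e, he⟩ := comps_nonempty hE
    obtain ⟨e', he'⟩ := comps_nonempty hE'
    apply comps_eq_of_ext hD hE' hE he' he
    intro η hη
    have h1 := hEF.type hD hc h0 hfin hE he hη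
    have h2 := (hconv' hE'F).type hD hc h0 hfin hE' he' hη
    rw [h1] at h2
    have hπ : (π : ℂ) ≠ 0 := by exact_mod_cast Real.pi_ne_zero
    exact (mul_left_cancel₀ hπ h2).symm
  · intro hnt
    obtain ⟨E, hE, R, F, hF, hmin, hdir, hiff⟩ := p3 hnt
    refine ⟨⟨F, (hiff F).mpr ⟨E, hE, hF⟩⟩, fun f => ?_⟩
    rw [hiff f]
    constructor
    · rintro ⟨E', hE', h⟩
      exact ⟨E', hE', R, hconv h, fun E'' hE'' R'' F'' h'' => hmin E'' hE'' R'' F'' (hconv' h'')⟩
    · rintro ⟨E', hE', R', h, hmin'⟩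
      have h1 : R ≤ R' := hmin E' hE' R' f (hconv' h)
      have h2 : R' ≤ R := hmin' E hE R F (hconv hF)
      have h3 : R' = R := le_antisymm h2 h1
      rw [h3] at h
      exact ⟨E', hE', hconv' h⟩
  · exact p4

end Pool.Agent.H62
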